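import Mathlib

/-!
# Bonin's question on the number of flats fails in rank three for every `q ≥ 16`

For every integer `q ≥ 16` there is a simple rank-three matroid without `U_{2,q+2}`-minor and with
more than `q ^ 2 + q + 1` lines. The matroid comes from the transversal design with `m + 1` groups
of size `m` (a projective plane of order `m` with one point removed), where the pairs inside a group
are two-point lines: every point is on `2 m - 1` lines, and there are
`m ^ 2 + (m + 1) * m * (m - 1) / 2` lines.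
-/

set_option autoImplicit false

namespace Pool.Agent.Results.MP_62a602_co.RankThreeLines

open Set

/-- A matroid is simple: it has no loops and no circuits with two elements. -/
def IsSimple {α : Type} (M : Matroid α) : Prop :=
  (∀ e, ¬ M.IsLoop e) ∧ ∀ C, M.IsCircuit C → C.ncard ≠ 2

/-- `N` is isomorphic to the uniform matroid of rank two on `n` elements: its ground set has `n`
elements, and its bases are the subsets of the ground set with two elements. -/
def IsUniformTwo {α : Type} (N : Matroid α) (n : ℕ) : Prop :=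
  N.E.ncard = n ∧ ∀ B, N.IsBase B ↔ B ⊆ N.E ∧ B.ncard = 2

/-- The Gaussian binomial coefficient. -/
def gauss (q r k : ℕ) : ℚ :=
  ∏ i ∈ Finset.range k, ((q : ℚ) ^ (r - i) - 1) / ((q : ℚ) ^ (i + 1) - 1)

section lin

variable {α : Type} (S : Set (Set α))

/-- independent sets of the rank-three matroid with long lines in `S` -/
def Ind (I : Set α) : Prop := I.ncard ≤ 3 ∧ (I.ncard = 3 → ∀ B ∈ S, ¬ I ⊆ B)

/-- the rank-three matroid whose lines with at least three points are in `S` -/
def lin [Finite α] (hS : ∀ A ∈ S, ∀ B ∈ S, ∀ x y, x ≠ y → x ∈ A → y ∈ A → x ∈ B → y ∈ B → A = B) :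
    Matroid α :=
  (IndepMatroid.ofFinite (E := Set.univ) (Set.toFinite _) (Ind S)
    ⟨by simp, by simp⟩
    (fun I J hJ hIJ => by
      have h1 : I.ncard ≤ J.ncard := Set.ncard_le_ncard hIJ (Set.toFinite _)
      refine ⟨h1.trans hJ.1, fun h B hB hIB => ?_⟩
      have h2 : I = J := Set.eq_of_subset_of_ncard_le hIJ (by have := hJ.1; omega) (Set.toFinite _)
      exact hJ.2 (h2 ▸ h) B hB (h2 ▸ hIB))
    (fun I J hI hJ hIJ => by
      by_contra hcon
      push Not at hcon
      obtain ⟨e, he, heI⟩ := Set.exists_mem_notMem_of_ncard_lt_ncard hIJ (Set.toFinite _)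
      have h3 := hJ.1
      have h1 : ∀ e ∈ J, e ∉ I → I.ncard = 2 ∧ ∃ B ∈ S, insert e I ⊆ B := by
        intro e he heI
        have h2 := hcon e he heI
        have h4 := Set.ncard_insert_of_notMem heI (Set.toFinite _)
        unfold Ind at h2
        rw [h4] at h2
        push Not at h2
        obtain ⟨h5, B, hB, h6⟩ := h2 (by omega)
        exact ⟨by omega, B, hB, h6⟩
      obtain ⟨h4, B, hB, h5⟩ := h1 e he heI
      obtain ⟨x, y, hxy, rfl⟩ := Set.ncard_eq_two.1 h4
      refine hJ.2 (by omega) B hB fun z hz => ?_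
      by_cases hzI : z ∈ ({x, y} : Set α)
      · exact h5 (Set.mem_insert_of_mem _ hzI)
      · obtain ⟨-, B', hB', h6⟩ := h1 z hz hzI
        have h7 : B = B' := hS B hB B' hB' x y hxy (h5 (by simp)) (h5 (by simp)) (h6 (by simp))
          (h6 (by simp))
        rw [h7]
        exact h6 (Set.mem_insert _ _))
    (fun _ _ => Set.subset_univ _)).matroid

variable [Finite α]
  (hS : ∀ A ∈ S, ∀ B ∈ S, ∀ x y, x ≠ y → x ∈ A → y ∈ A → x ∈ B → y ∈ B → A = B)

theorem lin_ground : (lin S hS).E = Set.univ := rfl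

theorem lin_indep (I : Set α) : (lin S hS).Indep I ↔ I.ncard ≤ 3 ∧ (I.ncard = 3 → ∀ B ∈ S, ¬ I ⊆ B) := by
  unfold lin
  rw [IndepMatroid.matroid_indep_iff]
  rfl

theorem lin_indep_two {I : Set α} (h : I.ncard ≤ 2) : (lin S hS).Indep I := by
  rw [lin_indep]
  exact ⟨by omega, fun h => by omega⟩

/-- the line through `x` and `y` -/
def ln (x y : α) : Set α := {z | z = x ∨ z = y ∨ ∃ B ∈ S, x ∈ B ∧ y ∈ B ∧ z ∈ B}

theorem closure_pair {x y : α} (hxy : x ≠ y) : (lin S hS).closure {x, y} = ln S x y := by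
  have h1 : (lin S hS).Indep {x, y} := lin_indep_two S hS (by rw [Set.ncard_pair hxy])
  ext z
  rw [h1.mem_closure_iff]
  by_cases hz : z ∈ ({x, y} : Set α)
  · constructor
    · intro _
      rcases hz with h | h
      · exact Or.inl h
      · exact Or.inr (Or.inl h)
    · exact fun _ => Or.inr hz
  · have h2 : (insert z ({x, y} : Set α)).ncard = 3 := by
      rw [Set.ncard_insert_of_notMem hz (Set.toFinite _), Set.ncard_pair hxy]
    rw [Matroid.Dep, lin_indep, h2, lin_ground]
    constructor
    · rintro (⟨h, -⟩ | h)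
      · push Not at h
        obtain ⟨-, B, hB, h3⟩ := h le_rfl
        exact Or.inr (Or.inr ⟨B, hB, h3 (by simp), h3 (by simp), h3 (by simp)⟩)
      · exact absurd h hz
    · rintro (h | h | ⟨B, hB, h3, h4, h5⟩)
      · exact absurd (Or.inl h) hz
      · exact absurd (Or.inr h) hz
      · left
        refine ⟨fun h => h.2 rfl B hB ?_, Set.subset_univ _⟩
        rintro _ (rfl | rfl | rfl)
        · exact h5
        · exact h3
        · exact h4

theorem ln_flat {x y : α} (hxy : x ≠ y) : (lin S hS).IsFlat (ln S x y) := by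
  rw [← closure_pair S hS hxy]
  exact Matroid.isFlat_closure _

theorem ln_rk {x y : α} (hxy : x ≠ y) : (lin S hS).eRk (ln S x y) = 2 := by
  have h1 : (lin S hS).Indep {x, y} := lin_indep_two S hS (by rw [Set.ncard_pair hxy])
  rw [← closure_pair S hS hxy, Matroid.eRk_closure_eq, h1.eRk_eq_encard, Set.encard_pair hxy]

theorem lin_simple : IsSimple (lin S hS) := by
  constructor
  · intro e he
    have h1 := he.dep
    exact h1.1 (lin_indep_two S hS (by rw [Set.ncard_singleton]; omega))
  · intro C hC h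
    exact hC.dep.1 (lin_indep_two S hS (by omega))

theorem lin_rank (I : Set α) (hI : (lin S hS).Indep I) (h3 : I.ncard = 3) :
    (lin S hS).eRank = 3 := by
  obtain ⟨B, hB, hIB⟩ := hI.exists_isBase_superset
  have h4 := ((lin_indep S hS B).1 hB.indep).1
  have h5 : I = B := Set.eq_of_subset_of_ncard_le hIB (by omega) (Set.toFinite _)
  rw [← hB.encard_eq_eRank, ← h5, ← (Set.toFinite I).cast_ncard_eq, h3]
  rfl

/-- if the lines have at most `n` points and every point is on at most `n` lines then there is no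
`U_{2,n+1}`-minor -/
theorem lin_no_minor (n : ℕ) (hn : 2 ≤ n) (hB : ∀ B ∈ S, B.ncard ≤ n)
    (hp : ∀ (p : α) (X : Set α), p ∉ X → (∀ x ∈ X, ∀ y ∈ X, x ≠ y → ∀ B ∈ S, ¬ (p ∈ B ∧ x ∈ B ∧ y ∈ B)) →
      X.ncard ≤ n) (N : Matroid α) (hN : N.IsMinor (lin S hS)) (k : ℕ) (hk : n < k) :
    ¬ IsUniformTwo N k := by
  rintro ⟨hcard, hbase⟩
  obtain ⟨C, D, hC, hD, hCD, rfl⟩ := hN.exists_eq_contract_delete_disjoint
  obtain ⟨I, hI⟩ := (lin S hS).exists_isBasis C hC
  set N := ((lin S hS).contract C).delete D with hNdef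
  have hE : ∀ x, x ∈ N.E ↔ x ∉ C ∧ x ∉ D := by
    intro x
    rw [hNdef, Matroid.delete_ground, Matroid.contract_ground, lin_ground]
    simp
  have hind : ∀ J ⊆ N.E, (N.Indep J ↔ (lin S hS).Indep (J ∪ I)) := by
    intro J hJ
    rw [hNdef, Matroid.delete_indep_iff, hI.contract_indep_iff]
    constructor
    · exact fun h => h.1.1
    · intro h
      refine ⟨⟨h, ?_⟩, ?_⟩
      · rw [Set.disjoint_left]
        exact fun x hx hxJ => ((hE x).1 (hJ hxJ)).1 hx
      · rw [Set.disjoint_left]
        exact fun x hx hxJ => ((hE x).1 (hJ hx)).2 hxJ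
  have hfin : N.E.Finite := Set.toFinite _
  have htwo : ∀ x ∈ N.E, ∀ y ∈ N.E, x ≠ y → N.Indep {x, y} := by
    intro x hx y hy hxy
    apply Matroid.IsBase.indep
    rw [hbase]
    refine ⟨?_, Set.ncard_pair hxy⟩
    rintro _ (rfl | rfl)
    · exact hx
    · exact hy
  have hthree : ∀ J ⊆ N.E, J.ncard = 3 → ¬ N.Indep J := by
    intro J hJ h3 hJi
    obtain ⟨B, hB, hJB⟩ := hJi.exists_isBase_superset
    have h4 := ((hbase B).1 hB).2
    have h5 := Set.ncard_le_ncard hJB (Set.toFinite _)
    omega
  obtain ⟨x, hx, y, hy, hxy⟩ : ∃ x ∈ N.E, ∃ y ∈ N.E, x ≠ y :=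
    (Set.one_lt_ncard hfin).1 (by omega)
  have hII : ∀ z ∈ N.E, z ∉ I := fun z hz hzI => ((hE z).1 hz).1 (hI.subset hzI)
  -- `I` has at most one element
  have hI1 : I.ncard ≤ 1 := by
    have h1 := ((lin_indep S hS _).1 ((hind _ (by
      rintro _ (rfl | rfl)
      · exact hx
      · exact hy)).1 (htwo x hx y hy hxy))).1
    rw [Set.ncard_union_eq (by
      rw [Set.disjoint_left]
      rintro _ (rfl | rfl)
      · exact hII _ hx
      · exact hII _ hy) (Set.toFinite _) (Set.toFinite _), Set.ncard_pair hxy] at h1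
    omega
  rcases Nat.lt_or_ge 0 I.ncard with h0 | h0
  · -- contraction of one point
    obtain ⟨p, rfl⟩ := Set.ncard_eq_one.1 (show I.ncard = 1 by omega)
    have h1 := hp p N.E (fun hpN => hII p hpN rfl) (by
      intro x hx y hy hxy B hB' h2
      have h3 := (hind {x, y} (by
        rintro _ (rfl | rfl)
        · exact hx
        · exact hy)).1 (htwo x hx y hy hxy)
      have h4 : ({x, y} ∪ {p} : Set α).ncard = 3 := by
        rw [Set.ncard_union_eq (by
          rw [Set.disjoint_left]
          rintro _ (rfl | rfl)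
          · exact hII _ hx
          · exact hII _ hy) (Set.toFinite _) (Set.toFinite _), Set.ncard_pair hxy,
          Set.ncard_singleton]
      refine ((lin_indep S hS _).1 h3).2 h4 B hB' ?_
      rintro _ ((rfl | rfl) | rfl)
      · exact h2.2.1
      · exact h2.2.2
      · exact h2.1)
    omega
  · -- restriction
    have hI0 : I = ∅ := by
      rw [← Set.ncard_eq_zero (Set.toFinite _)]
      omega
    subst hI0
    have h1 : ∀ z ∈ N.E, z ≠ x → z ≠ y → ∃ B ∈ S, x ∈ B ∧ y ∈ B ∧ z ∈ B := by
      intro z hz hzx hzy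
      have hc : (insert z ({x, y} : Set α)).ncard = 3 := by
        rw [Set.ncard_insert_of_notMem (by
          rintro (h | h)
          · exact hzx h
          · exact hzy h) (Set.toFinite _), Set.ncard_pair hxy]
      have hsub : insert z ({x, y} : Set α) ⊆ N.E := by
        rintro _ (rfl | rfl | rfl)
        · exact hz
        · exact hx
        · exact hy
      have h2 := hthree _ hsub hc
      rw [hind _ hsub, Set.union_empty, lin_indep, hc] at h2
      push Not at h2
      obtain ⟨-, B, hB', h3⟩ := h2 le_rfl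
      exact ⟨B, hB', h3 (by simp), h3 (by simp), h3 (by simp)⟩
    obtain ⟨z, hz, hzxy⟩ : ∃ z ∈ N.E, z ∉ ({x, y} : Set α) := by
      apply Set.exists_mem_notMem_of_ncard_lt_ncard _ (Set.toFinite _)
      rw [Set.ncard_pair hxy]
      omega
    obtain ⟨B, hB', hxB, hyB, hzB⟩ := h1 z hz (fun h => hzxy (Or.inl h)) (fun h => hzxy (Or.inr h))
    have h2 : N.E ⊆ B := by
      intro w hw
      by_cases hwx : w = x
      · rw [hwx]
        exact hxB
      by_cases hwy : w = y
      · rw [hwy]
        exact hyB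
      obtain ⟨B', hB'', h3, h4, h5⟩ := h1 w hw hwx hwy
      rw [hS B hB' B' hB'' x y hxy hxB hyB h3 h4]
      exact h5
    have h3 := Set.ncard_le_ncard h2 (Set.toFinite _)
    have h4 := hB B hB'
    omega

end lin

section td

variable {F : Type} [Field F]

/-- a block of the transversal design -/
def block (a b : F) : Set (Option F × F) :=
  {p | (p.1 = none → p.2 = a) ∧ ∀ u, p.1 = some u → p.2 = a * u + b}

theorem none_mem (a b y : F) : ((none, y) : Option F × F) ∈ block a b ↔ y = a := by
  simp [block]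

theorem some_mem (a b u y : F) : ((some u, y) : Option F × F) ∈ block a b ↔ y = a * u + b := by
  simp [block]

variable (F) in
/-- all blocks of the transversal design -/
def blocks : Set (Set (Option F × F)) := {B | ∃ a b, B = block a b}

theorem blocks_lin : ∀ A ∈ blocks F, ∀ B ∈ blocks F, ∀ x y, x ≠ y → x ∈ A → y ∈ A → x ∈ B →
    y ∈ B → A = B := by
  rintro _ ⟨a, b, rfl⟩ _ ⟨c, d, rfl⟩ ⟨u, x⟩ ⟨v, y⟩ hxy h1 h2 h3 h4
  have key : a = c ∧ b = d := by
    rcases u with _ | u <;> rcases v with _ | v
    · rw [none_mem] at h1 h2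
      exact absurd (by rw [h1, h2]) hxy
    · rw [none_mem] at h1 h3
      rw [some_mem] at h2 h4
      have h5 : a = c := h1.symm.trans h3
      refine ⟨h5, ?_⟩
      subst h5
      exact add_left_cancel (h2.symm.trans h4)
    · rw [some_mem] at h1 h3
      rw [none_mem] at h2 h4
      have h5 : a = c := h2.symm.trans h4
      refine ⟨h5, ?_⟩
      subst h5
      exact add_left_cancel (h1.symm.trans h3)
    · rw [some_mem] at h1 h2 h3 h4
      have huv : u ≠ v := by
        rintro rfl
        exact hxy (by rw [h1, h2])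
      have h5 : (a - c) * (u - v) = 0 := by linear_combination h3 - h1 + h2 - h4
      have h6 : a = c := sub_eq_zero.1 ((mul_eq_zero.1 h5).resolve_right (sub_ne_zero.2 huv))
      refine ⟨h6, ?_⟩
      subst h6
      exact add_left_cancel (h1.symm.trans h3)
  rw [key.1, key.2]

theorem fst_ne {a b : F} {p x : Option F × F} (hp : p ∈ block a b) (hx : x ∈ block a b)
    (h : x.1 = p.1) : x = p := by
  obtain ⟨u, y⟩ := p
  obtain ⟨v, z⟩ := x
  simp only at h
  subst h
  rcases v with _ | v
  · rw [none_mem] at hp hx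
    rw [hp, hx]
  · rw [some_mem] at hp hx
    rw [hp, hx]

variable [Finite F]

theorem block_card (a b : F) : (block a b).ncard ≤ Nat.card F + 1 := by
  have h1 : (block a b).ncard = (Prod.fst '' (block a b)).ncard := by
    symm
    apply Set.InjOn.ncard_image
    intro x hx y hy h
    exact fst_ne hy hx h
  rw [h1]
  refine (Set.ncard_le_ncard (Set.subset_univ _) (Set.toFinite _)).trans ?_
  rw [Set.ncard_univ, Finite.card_option]

open Classical in
/-- the block through two points of different groups -/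
noncomputable def par (p x : Option F × F) : F :=
  match p, x with
  | (some u, v), (some u', v') => (v' - v) / (u' - u)
  | (some _, _), (none, a) => a
  | (none, a), (some u', v') => v' - a * u'
  | (none, _), (none, _) => 0

omit [Finite F] in
theorem par_eq {p x y : Option F × F} (hx : x.1 ≠ p.1) (hy : y.1 ≠ p.1) (h : par p x = par p y) :
    ∃ B ∈ blocks F, p ∈ B ∧ x ∈ B ∧ y ∈ B := by
  obtain ⟨_ | u, v⟩ := p
  · obtain ⟨_ | u', v'⟩ := x
    · exact absurd rfl hx
    obtain ⟨_ | u'', v''⟩ := y
    · exact absurd rfl hy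
    refine ⟨block v (v' - v * u'), ⟨_, _, rfl⟩, ?_, ?_, ?_⟩
    · rw [none_mem]
    · rw [some_mem]
      ring
    · rw [some_mem]
      have h1 : v' - v * u' = v'' - v * u'' := h
      linear_combination -h1
  · obtain ⟨_ | u', v'⟩ := x
    · obtain ⟨_ | u'', v''⟩ := y
      · have h1 : v' = v'' := h
        refine ⟨block v' (v - v' * u), ⟨_, _, rfl⟩, ?_, ?_, ?_⟩
        · rw [some_mem]
          ring
        · rw [none_mem]
        · rw [none_mem, h1]
      · have h1 : v' = (v'' - v) / (u'' - u) := h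
        have h2 : u'' - u ≠ 0 := sub_ne_zero.2 fun h => hy (by rw [h])
        rw [eq_div_iff h2] at h1
        refine ⟨block v' (v - v' * u), ⟨_, _, rfl⟩, ?_, ?_, ?_⟩
        · rw [some_mem]
          ring
        · rw [none_mem]
        · rw [some_mem]
          linear_combination -h1
    · have h2 : u' - u ≠ 0 := sub_ne_zero.2 fun h => hx (by rw [h])
      obtain ⟨_ | u'', v''⟩ := y
      · have h1 : (v' - v) / (u' - u) = v'' := h
        rw [div_eq_iff h2] at h1
        refine ⟨block v'' (v - v'' * u), ⟨_, _, rfl⟩, ?_, ?_, ?_⟩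
        · rw [some_mem]
          ring
        · rw [some_mem]
          linear_combination h1
        · rw [none_mem]
      · have h1 : (v' - v) / (u' - u) = (v'' - v) / (u'' - u) := h
        have h3 : u'' - u ≠ 0 := sub_ne_zero.2 fun h => hy (by rw [h])
        have h4 : (v' - v) = (v'' - v) / (u'' - u) * (u' - u) := (div_eq_iff h2).1 h1
        have h5 : (v'' - v) = (v'' - v) / (u'' - u) * (u'' - u) := (div_mul_cancel₀ _ h3).symm
        refine ⟨block ((v'' - v) / (u'' - u)) (v - (v'' - v) / (u'' - u) * u), ⟨_, _, rfl⟩,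
          ?_, ?_, ?_⟩
        · rw [some_mem]
          ring
        · rw [some_mem]
          linear_combination h4
        · rw [some_mem]
          linear_combination h5

theorem point_lines (p : Option F × F) (X : Set (Option F × F)) (hp : p ∉ X)
    (hX : ∀ x ∈ X, ∀ y ∈ X, x ≠ y → ∀ B ∈ blocks F, ¬ (p ∈ B ∧ x ∈ B ∧ y ∈ B)) :
    X.ncard ≤ 2 * Nat.card F - 1 := by
  classical
  let f : Option F × F → F ⊕ {c : F // c ≠ p.2} := fun x =>
    if h : x.1 = p.1 ∧ x.2 ≠ p.2 then Sum.inr ⟨x.2, h.2⟩ else Sum.inl (par p x)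
  have hne : ∀ x ∈ X, x.1 = p.1 → x.2 ≠ p.2 := fun x hx h1 h2 => hp (by
    have : x = p := Prod.ext h1 h2
    rwa [← this])
  have hf : Set.InjOn f X := by
    intro x hx y hy hxy
    by_contra hne'
    by_cases h1 : x.1 = p.1
    · have e1 : f x = Sum.inr ⟨x.2, hne x hx h1⟩ := dif_pos ⟨h1, hne x hx h1⟩
      by_cases h2 : y.1 = p.1
      · have e2 : f y = Sum.inr ⟨y.2, hne y hy h2⟩ := dif_pos ⟨h2, hne y hy h2⟩
        rw [e1, e2] at hxy
        have h3 := congrArg Subtype.val (Sum.inr_injective hxy)
        exact hne' (Prod.ext (h1.trans h2.symm) h3)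
      · have e2 : f y = Sum.inl (par p y) := dif_neg fun h => h2 h.1
        rw [e1, e2] at hxy
        exact absurd hxy (by simp)
    · have e1 : f x = Sum.inl (par p x) := dif_neg fun h => h1 h.1
      by_cases h2 : y.1 = p.1
      · have e2 : f y = Sum.inr ⟨y.2, hne y hy h2⟩ := dif_pos ⟨h2, hne y hy h2⟩
        rw [e1, e2] at hxy
        exact absurd hxy (by simp)
      · have e2 : f y = Sum.inl (par p y) := dif_neg fun h => h2 h.1
        rw [e1, e2] at hxy
        obtain ⟨B, hB, h3⟩ := par_eq h1 h2 (Sum.inl_injective hxy)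
        exact hX x hx y hy hne' B hB h3
  rw [← hf.ncard_image]
  refine (Set.ncard_le_ncard (Set.subset_univ _) (Set.toFinite _)).trans ?_
  rw [Set.ncard_univ, Nat.card_sum]
  have h1 : Nat.card {c : F // c ≠ p.2} = Nat.card F - 1 := by
    letI := Fintype.ofFinite F
    rw [Nat.card_eq_fintype_card, Nat.card_eq_fintype_card, Fintype.card_subtype_compl,
      Fintype.card_subtype_eq]
  rw [h1]
  omega

variable (F) in
/-- the rank-three matroid of the transversal design -/
noncomputable def td : Matroid (Option F × F) := lin (blocks F) blocks_lin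

theorem block_eq_ln (a b : F) : block a b = ln (blocks F) ((none, a) : Option F × F) (some 0, b) := by
  ext z
  constructor
  · intro h
    exact Or.inr (Or.inr ⟨_, ⟨a, b, rfl⟩, (none_mem a b a).2 rfl, (some_mem a b 0 b).2 (by ring), h⟩)
  · rintro (rfl | rfl | ⟨_, ⟨c, d, rfl⟩, h1, h2, h3⟩)
    · rw [none_mem]
    · rw [some_mem]
      ring
    · rw [none_mem] at h1
      rw [some_mem, mul_zero, zero_add] at h2
      rw [h1, h2]
      exact h3

theorem pair_eq_ln (u : Option F) {c d : F} (hcd : c ≠ d) :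
    {p : Option F × F | p.1 = u ∧ (p.2 = c ∨ p.2 = d)} = ln (blocks F) (u, c) (u, d) := by
  ext z
  constructor
  · rintro ⟨h1, h2 | h2⟩
    · exact Or.inl (Prod.ext h1 h2)
    · exact Or.inr (Or.inl (Prod.ext h1 h2))
  · rintro (rfl | rfl | ⟨_, ⟨a, b, rfl⟩, h1, h2, h3⟩)
    · exact ⟨rfl, Or.inl rfl⟩
    · exact ⟨rfl, Or.inr rfl⟩
    · have h4 := fst_ne h1 h2 rfl
      exact absurd (congrArg Prod.snd h4).symm hcd

/-- the lines of the matroid of the transversal design -/
def lines : (F × F) ⊕ (Option F × {s : Finset F // s.card = 2}) → Set (Option F × F)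
  | Sum.inl (a, b) => block a b
  | Sum.inr (u, s) => {p | p.1 = u ∧ p.2 ∈ s.1}

theorem lines_inj : Function.Injective (lines (F := F)) := by
  rintro (⟨a, b⟩ | ⟨u, s, hs⟩) (⟨c, d⟩ | ⟨v, t, ht⟩) h
  · have h' : block a b = block c d := h
    have h1 : ((none, a) : Option F × F) ∈ block c d := h' ▸ (none_mem a b a).2 rfl
    have h2 : ((some 0, b) : Option F × F) ∈ block c d := h' ▸ (some_mem a b 0 b).2 (by ring)
    rw [none_mem] at h1
    rw [some_mem, mul_zero, zero_add] at h2
    rw [h1, h2]
  · exfalso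
    have h' : block a b = {p | p.1 = v ∧ p.2 ∈ t} := h
    have h1 : ((none, a) : Option F × F) ∈ block a b := (none_mem a b a).2 rfl
    have h2 : ((some 0, b) : Option F × F) ∈ block a b := (some_mem a b 0 b).2 (by ring)
    rw [h'] at h1 h2
    have h3 := h1.1.trans h2.1.symm
    simp at h3
  · exfalso
    have h' : {p | p.1 = u ∧ p.2 ∈ s} = block c d := h
    have h1 : ((none, c) : Option F × F) ∈ block c d := (none_mem c d c).2 rfl
    have h2 : ((some 0, d) : Option F × F) ∈ block c d := (some_mem c d 0 d).2 (by ring)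
    rw [← h'] at h1 h2
    have h3 := h1.1.trans h2.1.symm
    simp at h3
  · have h' : {p : Option F × F | p.1 = u ∧ p.2 ∈ s} = {p | p.1 = v ∧ p.2 ∈ t} := h
    obtain ⟨x, hx⟩ := Finset.card_pos.1 (show 0 < s.card by omega)
    have h1 : ((u, x) : Option F × F) ∈ {p : Option F × F | p.1 = u ∧ p.2 ∈ s} := ⟨rfl, hx⟩
    rw [h'] at h1
    have h2 : u = v := h1.1
    subst h2
    have h3 : s = t := by
      ext y
      constructor
      · intro hy
        have h4 : ((u, y) : Option F × F) ∈ {p : Option F × F | p.1 = u ∧ p.2 ∈ s} := ⟨rfl, hy⟩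
        rw [h'] at h4
        exact h4.2
      · intro hy
        have h4 : ((u, y) : Option F × F) ∈ {p : Option F × F | p.1 = u ∧ p.2 ∈ t} := ⟨rfl, hy⟩
        rw [← h'] at h4
        exact h4.2
    subst h3
    rfl

theorem lines_count : Nat.card F ^ 2 + (Nat.card F + 1) * (Nat.card F).choose 2 ≤
    {L | (td F).IsFlat L ∧ (td F).eRk L = 2}.ncard := by
  classical
  have h1 : Set.range (lines (F := F)) ⊆ {L | (td F).IsFlat L ∧ (td F).eRk L = 2} := by
    rintro _ ⟨⟨a, b⟩ | ⟨u, s, hs⟩, rfl⟩
    · have h2 : lines (Sum.inl (a, b)) = ln (blocks F) ((none, a) : Option F × F) (some 0, b) :=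
        block_eq_ln a b
      have h3 : ((none, a) : Option F × F) ≠ (some 0, b) := by simp
      rw [h2]
      exact ⟨ln_flat _ blocks_lin h3, ln_rk _ blocks_lin h3⟩
    · obtain ⟨c, d, hcd, rfl⟩ := Finset.card_eq_two.1 hs
      have h2 : lines (Sum.inr (u, ⟨{c, d}, hs⟩)) =
          {p : Option F × F | p.1 = u ∧ (p.2 = c ∨ p.2 = d)} := by
        ext p
        simp [lines]
      have h3 : ((u, c) : Option F × F) ≠ (u, d) := by simp [hcd]
      rw [h2, pair_eq_ln u hcd]
      exact ⟨ln_flat _ blocks_lin h3, ln_rk _ blocks_lin h3⟩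
  refine le_trans (le_of_eq ?_) (Set.ncard_le_ncard h1 (Set.toFinite _))
  rw [← Set.image_univ, Set.ncard_image_of_injective _ lines_inj, Set.ncard_univ, Nat.card_sum,
    Nat.card_prod, Nat.card_prod, Finite.card_option]
  letI := Fintype.ofFinite F
  have h2 : Nat.card {s : Finset F // s.card = 2} = (Nat.card F).choose 2 := by
    rw [Nat.card_eq_fintype_card, Nat.card_eq_fintype_card, Fintype.card_finset_len]
  rw [h2]
  ring

theorem td_rank : (td F).eRank = 3 := by
  have h01 : (0 : F) ≠ 1 := zero_ne_one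
  have hc : ({(none, 0), (some 0, 0), (some 0, 1)} : Set (Option F × F)).ncard = 3 := by
    rw [Set.ncard_insert_of_notMem (by simp) (Set.toFinite _), Set.ncard_pair (by simp)]
  refine lin_rank _ blocks_lin {(none, 0), (some 0, 0), (some 0, 1)} ?_ hc
  rw [lin_indep]
  refine ⟨hc.le, fun _ => ?_⟩
  rintro _ ⟨a, b, rfl⟩ hsub
  have h1 : ((some 0, 0) : Option F × F) ∈ block a b := hsub (by simp)
  have h2 : ((some 0, 1) : Option F × F) ∈ block a b := hsub (by simp)
  rw [some_mem] at h1 h2
  exact h01 (h1.trans h2.symm)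

end td

/-- the matroid for the field of order `m` -/
theorem main (p n q : ℕ) (hp : p.Prime) (hn : n ≠ 0) (h1 : 2 * p ^ n ≤ q + 2)
    (h2 : q ^ 2 + q + 1 < (p ^ n) ^ 2 + (p ^ n + 1) * (p ^ n).choose 2) :
    ∃ (α : Type) (M : Matroid α), M.Finite ∧ IsSimple M ∧ M.eRank = 3 ∧
      (∀ N : Matroid α, N.IsMinor M → ¬ IsUniformTwo N (q + 2)) ∧
      q ^ 2 + q + 1 < {L | M.IsFlat L ∧ M.eRk L = 2}.ncard := by
  have : Fact p.Prime := ⟨hp⟩
  have hcard : Nat.card (GaloisField p n) = p ^ n := GaloisField.card p n hn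
  have hp2 : 2 ≤ p ^ n := hp.two_le.trans (Nat.le_self_pow hn p)
  have : Finite (GaloisField p n) := inferInstance
  refine ⟨Option (GaloisField p n) × GaloisField p n, td (GaloisField p n), ⟨Set.toFinite _⟩,
    lin_simple _ _, td_rank, ?_, ?_⟩
  · intro N hN
    refine lin_no_minor _ blocks_lin (2 * p ^ n - 1) (by omega) ?_ ?_ N hN (q + 2) (by omega)
    · rintro _ ⟨a, b, rfl⟩
      have := block_card a b
      rw [hcard] at this
      omega
    · intro x X hx hX
      have := point_lines x X hx hX
      rwa [hcard] at this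
  · have := lines_count (F := GaloisField p n)
    rw [hcard] at this
    exact h2.trans_le this

/-- **Bonin's bound fails in rank three for every `q ≥ 16`.** For every integer `q ≥ 16` there is a
simple matroid of rank three without minor isomorphic to `U_{2,q+2}` that has more than
`[3 choose 2]_q = q ^ 2 + q + 1` flats of rank two. -/
theorem result (q : ℕ) (hq : 16 ≤ q) :
    ∃ (α : Type) (M : Matroid α), M.Finite ∧ IsSimple M ∧ M.eRank = 3 ∧
      (∀ N : Matroid α, N.IsMinor M → ¬ IsUniformTwo N (q + 2)) ∧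
      gauss q 3 2 < {L | M.IsFlat L ∧ M.eRk L = 2}.ncard := by
  have key : ∃ (α : Type) (M : Matroid α), M.Finite ∧ IsSimple M ∧ M.eRank = 3 ∧
      (∀ N : Matroid α, N.IsMinor M → ¬ IsUniformTwo N (q + 2)) ∧
      q ^ 2 + q + 1 < {L | M.IsFlat L ∧ M.eRk L = 2}.ncard := by
    rcases Nat.lt_or_ge q 62 with h | h
    · rcases Nat.lt_or_ge q 20 with h1 | h1
      · refine main 3 2 q (by norm_num) (by norm_num) (by omega) ?_
        refine lt_of_lt_of_eq (b := 441) (by nlinarith) ?_
        rw [Nat.choose_two_right]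
        norm_num
      rcases Nat.lt_or_ge q 28 with h2 | h2
      · refine main 11 1 q (by norm_num) (by norm_num) (by omega) ?_
        refine lt_of_lt_of_eq (b := 781) (by nlinarith) ?_
        rw [Nat.choose_two_right]
        norm_num
      rcases Nat.lt_or_ge q 35 with h3 | h3
      · refine main 13 1 q (by norm_num) (by norm_num) (by omega) ?_
        refine lt_of_lt_of_eq (b := 1261) (by nlinarith) ?_
        rw [Nat.choose_two_right]
        norm_num
      rcases Nat.lt_or_ge q 48 with h4 | h4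
      · refine main 2 4 q (by norm_num) (by norm_num) (by omega) ?_
        refine lt_of_lt_of_eq (b := 2296) (by nlinarith) ?_
        rw [Nat.choose_two_right]
        norm_num
      · refine main 5 2 q (by norm_num) (by norm_num) (by omega) ?_
        refine lt_of_lt_of_eq (b := 8425) (by nlinarith) ?_
        rw [Nat.choose_two_right]
        norm_num
    · have hk0 : (q + 2) / 2 ≠ 0 := by omega
      set k := Nat.log 2 ((q + 2) / 2) with hk
      have h1 : 2 ^ k ≤ (q + 2) / 2 := Nat.pow_log_le_self 2 hk0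
      have h2 : (q + 2) / 2 < 2 ^ (k + 1) := Nat.lt_pow_succ_log_self (by norm_num) _
      have h5 : 5 ≤ k := by
        rw [hk]
        apply Nat.le_log_of_pow_le (by norm_num)
        omega
      have h6 : 32 ≤ 2 ^ k := by
        calc 32 = 2 ^ 5 := by norm_num
          _ ≤ 2 ^ k := Nat.pow_le_pow_right (by norm_num) h5
      refine main 2 k q (by norm_num) (by omega) (by omega) ?_
      set m := 2 ^ k with hm
      have h7 : q + 2 < 4 * m := by
        have : 2 ^ (k + 1) = 2 * m := by rw [hm, pow_succ, mul_comm]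
        omega
      have h8 : m.choose 2 * 2 = m * (m - 1) := by
        rw [Nat.choose_two_right]
        exact Nat.div_mul_cancel (Nat.even_mul_pred_self m).two_dvd
      obtain ⟨j, hj⟩ : ∃ j, m = j + 32 := ⟨m - 32, by omega⟩
      obtain ⟨i, hi⟩ : ∃ i, q + 3 + i = 4 * m := ⟨4 * m - (q + 3), by omega⟩
      have h9 : m - 1 = j + 31 := by omega
      rw [h9, hj] at h8
      rw [hj]
      have h10 : q ≤ 4 * j + 125 := by omega
      have h11 : q ^ 2 + q + 1 ≤ (4 * j + 125) ^ 2 + (4 * j + 125) + 1 := by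
        have := Nat.pow_le_pow_left h10 2
        omega
      refine lt_of_le_of_lt h11 ?_
      have h12 : 2 * ((4 * j + 125) ^ 2 + (4 * j + 125) + 1) <
          2 * ((j + 32) ^ 2) + (j + 32 + 1) * ((j + 32).choose 2 * 2) := by
        rw [h8]
        nlinarith [sq_nonneg j, Nat.zero_le (j ^ 3)]
      nlinarith
  obtain ⟨α, M, h1, h2, h3, h4, h5⟩ := key
  refine ⟨α, M, h1, h2, h3, h4, ?_⟩
  have h6 : gauss q 3 2 = (q : ℚ) ^ 2 + q + 1 := by
    have hq1 : (q : ℚ) - 1 ≠ 0 := by
      have : (16 : ℚ) ≤ q := by exact_mod_cast hq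
      linarith
    have hq2 : (q : ℚ) ^ 2 - 1 ≠ 0 := by
      have : (16 : ℚ) ≤ q := by exact_mod_cast hq
      nlinarith
    unfold gauss
    rw [Finset.prod_range_succ, Finset.prod_range_one]
    norm_num
    field_simp
    ring
  rw [h6]
  exact_mod_cast h5

end Pool.Agent.Results.MP_62a602_co.RankThreeLines
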